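import Pool.Agent.R643.PPMain

set_option autoImplicit false

/-!
# The group `S = ⟨T, s⟩` is generated by two elements

Let `rot` be the torsion element of Thompson's group `T` (of order `103`) which maps `∞ ↦ 0` and
acts by `t ↦ t + 1` on `[0, 100]`. There are elements `G₁, G₄ ∈ F` and `G₂ ∈ S` with small supports
and with `[G₂, G₁] = s` and `[G₁, G₄] = x₁⁻¹ x₀`, where `x₀, x₁, …` are the standard generators of
the subgroup of `F` supported on the positive half line. Placing translates of `G₁, G₂, G₄` at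
the positions `40, 50, 70` gives one element `y`, and in the commutators of translates of `y` all
but one pair of supports are disjoint. So the group generated by `rot` and `y` contains `s` and
`x₁⁻¹ x₀`, and it follows that it contains `T`.
-/

namespace Pool.Agent.Results.MP_2f0074_al.TwoGenerated

open OnePoint Pool.Agent.R643.PP

/-- `s` is the homeomorphism of the circle `ℝ ∪ {∞}` which fixes `∞` and is given by `t` for
`t ≤ 0`, by `2t/(1+t)` on `[0,1]`, by `2/(3-t)` on `[1,2]` and by `t` for `t ≥ 2`. -/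
def IsS (s : Circ ≃ₜ Circ) : Prop :=
  s ∞ = ∞ ∧ (∀ t : ℝ, t ≤ 0 → s (t : Circ) = (t : Circ)) ∧
    (∀ t : ℝ, 0 ≤ t → t ≤ 1 → s (t : Circ) = ((2 * t / (1 + t) : ℝ) : Circ)) ∧
    (∀ t : ℝ, 1 ≤ t → t ≤ 2 → s (t : Circ) = ((2 / (3 - t) : ℝ) : Circ)) ∧
    ∀ t : ℝ, 2 ≤ t → s (t : Circ) = (t : Circ)

/-- The explicit homeomorphism satisfies the formulas. -/
theorem isS_s0 : IsS (E s0) := by
  refine ⟨E_infty _, fun t h => ?_, fun t h h' => ?_, fun t h h' => ?_, fun t h => ?_⟩
  · rw [E_coe, s0_apply, sFun_1 h]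
  · rw [E_coe, s0_apply, sFun_2 h h']
  · rw [E_coe, s0_apply, sFun_3 h h']
  · rw [E_coe, s0_apply, sFun_4 h]

/-- The formulas determine the homeomorphism. -/
theorem IsS.eq {s : Circ ≃ₜ Circ} (hs : IsS s) : s = E s0 := by
  obtain ⟨h0, h1, h2, h3, h4⟩ := hs
  obtain ⟨k0, k1, k2, k3, k4⟩ := isS_s0
  refine Homeomorph.ext fun z => ?_
  induction z using OnePoint.rec with
  | infty => rw [h0, k0]
  | coe t =>
    rcases le_total t 0 with h | h
    · rw [h1 t h, k1 t h]
    rcases le_total t 1 with h' | h'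
    · rw [h2 t h h', k2 t h h']
    rcases le_total t 2 with h'' | h''
    · rw [h3 t h' h'', k3 t h' h'']
    · rw [h4 t h'', k4 t h'']

/-- The homeomorphism `s` exists, and the group generated by Thompson's group `T` (the
orientation-preserving piecewise `PSL₂(ℤ)` homeomorphisms of the circle) and `s` is generated by
two elements. -/
theorem result : (∃ s : Circ ≃ₜ Circ, IsS s) ∧ ∀ s : Circ ≃ₜ Circ, IsS s →
    ∃ a b : Circ ≃ₜ Circ,
      Subgroup.closure {a, b} = Subgroup.closure ((T : Set (Circ ≃ₜ Circ)) ∪ {s}) := by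
  refine ⟨⟨E s0, isS_s0⟩, fun s hs => ⟨rot 100, E (Psi 40), ?_⟩⟩
  rw [hs.eq]
  exact two_generated

end Pool.Agent.Results.MP_2f0074_al.TwoGenerated
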